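import Pool.Agent.J6H94.AP.Stm

set_option autoImplicit false

/-!
# Project AP (helper94), module AP-LIN (helper22): the two centres are proportional
-/

namespace Pool.Agent.J6H22.AP

open Pool.Agent.J6H94.AP

theorem lin : S_lin := by
  intro E _ _ _ _ r A B h0 h1 hyp
  have hunit : ∀ z : E, z ≠ 0 → ‖‖z‖⁻¹ • z‖ = 1 := by
    intro z hz
    rw [norm_smul, norm_inv, norm_norm, inv_mul_cancel₀ (norm_ne_zero_iff.2 hz)]
  have unit : ∀ C : E, ∃ u : E, ‖u‖ = 1 ∧ ‖C‖ • u = C := by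
    intro C
    by_cases hC : C = 0
    · obtain ⟨z, hz⟩ := exists_ne (0 : E)
      exact ⟨‖z‖⁻¹ • z, hunit z hz, by rw [hC, norm_zero, zero_smul]⟩
    · exact ⟨‖C‖⁻¹ • C, hunit C hC, smul_inv_smul₀ (norm_ne_zero_iff.2 hC) C⟩
  have plus : ∀ (c : ℝ) (u : E), 0 ≤ c → ‖u‖ = 1 → ‖-u - c • u‖ = 1 + c := by
    intro c u hc hu
    have h : -u - c • u = (-(1 + c)) • u := by module
    rw [h, norm_smul, hu, mul_one, norm_neg, Real.norm_of_nonneg (by linarith)]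
  have minus : ∀ (c : ℝ) (u : E), ‖u‖ = 1 → ‖u - c • u‖ = |1 - c| := by
    intro c u hu
    have h : u - c • u = (1 - c) • u := by module
    rw [h, norm_smul, hu, mul_one, Real.norm_eq_abs]
  obtain ⟨u, hu, hA⟩ := unit A
  obtain ⟨v, hv, hB⟩ := unit B
  have pA := plus ‖A‖ u (norm_nonneg A) hu
  rw [hA] at pA
  have pB := plus ‖B‖ v (norm_nonneg B) hv
  rw [hB] at pB
  have mA := minus ‖A‖ u hu
  rw [hA] at mA
  have mB := minus ‖B‖ v hv
  rw [hB] at mB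
  have nu : ‖-u‖ = 1 := by rw [norm_neg, hu]
  have nv : ‖-v‖ = 1 := by rw [norm_neg, hv]
  have e1 : 1 + ‖A‖ = r * (1 + ‖B‖) := by
    apply le_antisymm
    · rw [← pA, hyp _ nu]
      exact mul_le_mul_of_nonneg_left ((norm_sub_le _ _).trans_eq (by rw [nu])) h0.le
    · rw [← pB, ← hyp _ nv]
      exact (norm_sub_le _ _).trans_eq (by rw [nv])
  have e2 : |1 - ‖A‖| = r * |1 - ‖B‖| := by
    apply le_antisymm
    · rw [← mB, ← hyp _ hv]
      have h := abs_norm_sub_norm_le v A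
      rwa [hv] at h
    · rw [← mA, hyp _ hu]
      refine mul_le_mul_of_nonneg_left ?_ h0.le
      have h := abs_norm_sub_norm_le u B
      rwa [hu] at h
  have e3 : (1 - ‖A‖) ^ 2 = r ^ 2 * (1 - ‖B‖) ^ 2 := by
    rw [← sq_abs, e2, mul_pow, sq_abs]
  have e1' : (1 + ‖A‖) ^ 2 = r ^ 2 * (1 + ‖B‖) ^ 2 := by
    rw [e1]
    ring
  have e4 : ‖A‖ = r ^ 2 * ‖B‖ := by linear_combination (e1' - e3) / 4
  have e5 : r * ‖B‖ = 1 := by
    have h : (1 - r) * (1 - r * ‖B‖) = 0 := by linear_combination e1 - e4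
    rcases mul_eq_zero.1 h with h | h
    · linarith
    · linarith
  have e6 : ‖A‖ = r := by
    rw [e4]
    linear_combination r * e5
  have h2 : ‖v + A‖ = ‖v‖ + ‖A‖ := by
    rw [hv, e1, ← pB, ← hyp _ nv, ← norm_neg (v + A), neg_add']
  have h3 := (sameRay_iff_norm_add.2 h2).norm_smul_eq
  rw [hv, one_smul, e6] at h3
  have h4 : r • B = v := by
    rw [← hB, smul_smul, e5, one_smul]
  have h5 : ∀ x : E, ‖x‖ = 1 → ‖x - r • v‖ = ‖r • x - v‖ := by
    intro x hx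
    rw [← h3, hyp x hx, ← h4, ← smul_sub, norm_smul, Real.norm_of_nonneg h0.le]
  refine ⟨v, hv, fun x => ?_⟩
  by_cases hx : x = 0
  · subst hx
    simp
  · have hx' : ‖x‖ ≠ 0 := norm_ne_zero_iff.2 hx
    have h6 := h5 _ (hunit x hx)
    have h7 : x - (r * ‖x‖) • v = ‖x‖ • (‖x‖⁻¹ • x - r • v) := by
      rw [smul_sub, smul_inv_smul₀ hx', smul_smul, mul_comm r]
    have h8 : r • x - ‖x‖ • v = ‖x‖ • (r • ‖x‖⁻¹ • x - v) := by
      rw [smul_sub, smul_comm r, smul_inv_smul₀ hx']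
    rw [h7, h8, norm_smul, norm_smul, h6]

end Pool.Agent.J6H22.AP
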